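import Pool.Agent.U152.MU.Cyc

/-!
# Detection of `μ` by vectors in simple modules, for the cyclotomic tower
-/

set_option autoImplicit false

namespace Pool.Agent.U152.MU

open Subgroup Module IntermediateField Pool.Agent.Q60.MU Pool.Agent.W5h77.MB
open Pool.Agent.X310.Mu (comms)
open scoped Pointwise commutatorElement

/-- A set of number fields which are Galois over `ℚ` and are generated by elements of the fields of the
roots of unity of `p`-power order. -/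
def Lay (p : ℕ) (𝓡 : Set (IntermediateField ℚ Qb)) : Prop :=
  ∀ R ∈ 𝓡, FiniteDimensional ℚ R ∧ IsGalois ℚ R ∧ ∃ N, R ≤ CY p N

/-- Only finitely many primes ramify in a number field. -/
def FinRam (I : ValuationSubring Qb → Subgroup Gal(Qb/ℚ)) : Prop :=
  ∀ M : IntermediateField ℚ Qb, FiniteDimensional ℚ M → ∃ S : Finset ℕ, (∀ ℓ ∈ S, ℓ.Prime) ∧
    ∀ A, I A ≤ M.fixingSubgroup ∨ ∃ ℓ ∈ S, (ℓ : Qb) ∈ A.nonunits

/-- The ranks are bounded. -/
def MuS (p : ℕ) (I : ValuationSubring Qb → Subgroup Gal(Qb/ℚ)) (𝓡 : Set (IntermediateField ℚ Qb))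
    (U : Subgroup Gal(Qb/ℚ)) : Prop :=
  ∃ C, ∀ R ∈ 𝓡, RankLe p I (U ⊓ R.fixingSubgroup) C

theorem finRam_inertia : FinRam inertia := by
  intro M hM
  obtain ⟨c, hc0, hc⟩ := exists_bad M
  refine ⟨c.primeFactors, fun ℓ hℓ => Nat.prime_of_mem_primeFactors hℓ, fun A => ?_⟩
  by_cases h : inertia A ≤ M.fixingSubgroup
  · exact Or.inl h
  · right
    obtain ⟨σ, hσ, hσK⟩ := SetLike.not_le_iff_exists.1 h
    exact exists_prime hc0 (hc A σ hσ hσK)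

theorem relIndex_inf_le {K L D : Subgroup Gal(Qb/ℚ)} (hKL : K ≤ L) (hf : K.relIndex L ≠ 0) :
    (K ⊓ D).relIndex (L ⊓ D) ≠ 0 ∧ (K ⊓ D).relIndex (L ⊓ D) ≤ K.relIndex L := by
  have h1 : (K ⊓ D).relIndex (L ⊓ D) = K.relIndex (L ⊓ D) := by
    rw [← inf_relIndex_right, ← inf_relIndex_right K]
    congr 1
    ext x
    simp only [Subgroup.mem_inf]
    tauto
  rw [h1]
  refine ⟨fun h => hf (relIndex_eq_zero_of_le_right inf_le_left h), ?_⟩
  exact relIndex_le_of_le_right inf_le_left hf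

/-- Subfields. -/
theorem MuS.of_le {p : ℕ} {I : ValuationSubring Qb → Subgroup Gal(Qb/ℚ)}
    {𝓡 : Set (IntermediateField ℚ Qb)} (h𝓡 : Lay p 𝓡)
    {K L : Subgroup Gal(Qb/ℚ)} (hKL : K ≤ L) (hKo : IsOpen (K : Set Gal(Qb/ℚ)))
    (hKf : K.index ≠ 0) (h : MuS p I 𝓡 K) : MuS p I 𝓡 L := by
  obtain ⟨C, hC⟩ := h
  have hf : K.relIndex L ≠ 0 := fun h0 => hKf (by rw [← relIndex_mul_index hKL, h0, zero_mul])
  refine ⟨C * K.relIndex L, fun R hR => ?_⟩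
  obtain ⟨hRf, -, -⟩ := h𝓡 R hR
  obtain ⟨h1, h2⟩ := relIndex_inf_le (D := R.fixingSubgroup) hKL hf
  refine (RankLe.of_le (inf_le_inf_right _ hKL) (by
    rw [Subgroup.coe_inf]
    exact hKo.inter R.fixingSubgroup_isOpen) h1 (hC R hR)).mono ?_
  exact Nat.mul_le_mul_left _ h2

/-- **Detection.** -/
theorem detS {p : ℕ} [hp : Fact p.Prime] {I : ValuationSubring Qb → Subgroup Gal(Qb/ℚ)}
    (hI : ∀ (g : Gal(Qb/ℚ)) (w : ValuationSubring Qb), ∀ x ∈ I w, g * x * g⁻¹ ∈ I (g • w))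
    (hIr : FinRam I) {𝓡 : Set (IntermediateField ℚ Qb)} (h𝓡 : Lay p 𝓡)
    {K : Subgroup Gal(Qb/ℚ)} (hKn : K.Normal) (hKo : IsOpen (K : Set Gal(Qb/ℚ))) (hKf : K.index ≠ 0)
    (hvec : ∀ (S : Type) [AddCommGroup S] [Module (ZMod p) S] [Module.Finite (ZMod p) S]
      (τ : Representation (ZMod p) Gal(Qb/ℚ) S), (∀ g ∈ K, ∀ x, τ g x = x) → IsSimple τ →
      ∃ L, (K ≤ L ∧ MuS p I 𝓡 L) ∧ ∃ v : S, v ≠ 0 ∧ L ≤ stab τ v) :
    MuS p I 𝓡 K := by
  classical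
  by_contra hcon
  unfold MuS at hcon
  push Not at hcon
  choose R hR hno using hcon
  have hfd := finite_fixed hKo hKf
  have hfix := fix_fixed hKo
  obtain ⟨S, hS, hSA⟩ := hIr (fixedField K) hfd
  rw [hfix] at hSA
  choose! t T hTt hT using fun ℓ (hℓ : ℓ.Prime) => fin_cyc hp.out ℓ hℓ
  have hred := reduction (p := p) (I := I) hI (Dm := fun m => (R m).fixingSubgroup)
    (fun m => (InfiniteGalois.normal_iff_isGalois (R m)).2 (h𝓡 _ (hR m)).2.1)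
    (fun m => by
      have := (h𝓡 _ (hR m)).1
      exact (R m).fixingSubgroup_isOpen)
    (fun m => by
      have := (h𝓡 _ (hR m)).1
      exact index_ne_zero' (R m)) hKn hKo hKf ?_ ?_
  · obtain ⟨C, hC⟩ := hred
    exact hno C (hC C)
  · refine ⟨∑ ℓ ∈ S, t ℓ, fun m => ?_⟩
    obtain ⟨N, hN⟩ := (h𝓡 _ (hR m)).2.2
    refine ⟨S.biUnion fun ℓ => T ℓ N, ?_, fun A => ?_⟩
    · exact Finset.card_biUnion_le.trans (Finset.sum_le_sum fun ℓ hℓ => hTt ℓ (hS ℓ hℓ) N)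
    · rcases hSA A with h | ⟨ℓ, hℓ, hℓA⟩
      · exact Or.inl (inf_le_left.trans h)
      · right
        obtain ⟨B, hB, σ, hσ, h1⟩ := hT ℓ (hS ℓ hℓ) N A hℓA
        exact ⟨B, Finset.mem_biUnion.2 ⟨ℓ, hℓ, hB⟩, σ, fixingSubgroup_le hN hσ, h1⟩
  · intro Q _ _ _ τ hτ hs
    obtain ⟨L, ⟨hL1, C, hC⟩, hv⟩ := hvec Q τ hτ hs
    exact ⟨L, ⟨hL1, C, fun m => hC _ (hR m)⟩, hv⟩

/-- Detection by an involution. -/
theorem inv_detS {p : ℕ} [hp : Fact p.Prime]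
    {I : ValuationSubring Qb → Subgroup Gal(Qb/ℚ)}
    (hI : ∀ (g : Gal(Qb/ℚ)) (w : ValuationSubring Qb), ∀ x ∈ I w, g * x * g⁻¹ ∈ I (g • w))
    (hIr : FinRam I) {𝓡 : Set (IntermediateField ℚ Qb)} (h𝓡 : Lay p 𝓡)
    {K : Subgroup Gal(Qb/ℚ)} (hKn : K.Normal) (hKo : IsOpen (K : Set Gal(Qb/ℚ))) (hKf : K.index ≠ 0)
    {c : Gal(Qb/ℚ)} (hc : c * c ∈ K)
    (hplus : ∀ (S : Type) [AddCommGroup S] [Module (ZMod p) S] [Module.Finite (ZMod p) S]
      (τ : Representation (ZMod p) Gal(Qb/ℚ) S), (∀ g ∈ K, ∀ x, τ g x = x) → IsSimple τ →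
      (∃ v : S, v ≠ 0 ∧ τ c v = v) →
      ∃ L, (K ≤ L ∧ MuS p I 𝓡 L) ∧ ∃ v : S, v ≠ 0 ∧ L ≤ stab τ v)
    (hminus : ∀ (S : Type) [AddCommGroup S] [Module (ZMod p) S] [Module.Finite (ZMod p) S]
      (τ : Representation (ZMod p) Gal(Qb/ℚ) S), (∀ g ∈ K, ∀ x, τ g x = x) → IsSimple τ →
      (∀ v, τ c v = -v) → ∃ L, (K ≤ L ∧ MuS p I 𝓡 L) ∧ ∃ v : S, v ≠ 0 ∧ L ≤ stab τ v) :
    MuS p I 𝓡 K := by
  refine detS hI hIr h𝓡 hKn hKo hKf fun S _ _ _ τ hτ hs => ?_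
  by_cases h : ∃ v : S, v ≠ 0 ∧ τ c v = v
  · exact hplus S τ hτ hs h
  · refine hminus S τ hτ hs fun v => ?_
    have h1 : τ c (v + τ c v) = v + τ c v := by
      rw [map_add, ← Module.End.mul_apply, ← map_mul, hτ _ hc, add_comm]
    by_contra h2
    apply h
    refine ⟨v + τ c v, fun h3 => h2 ?_, h1⟩
    exact (neg_eq_of_add_eq_zero_right h3).symm

theorem zpowers_le_stab {p : ℕ} {S : Type} [Fact p.Prime] [AddCommGroup S] [Module (ZMod p) S]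
    {τ : Representation (ZMod p) Gal(Qb/ℚ) S} {K : Subgroup Gal(Qb/ℚ)} (hτ : ∀ g ∈ K, ∀ x, τ g x = x)
    {c : Gal(Qb/ℚ)} {v : S} (h : τ c v = v) : K ⊔ Subgroup.zpowers c ≤ stab τ v := by
  refine sup_le (fun g hg => hτ g hg v) ?_
  rw [Subgroup.zpowers_le]
  exact h

theorem comms_le_stab {p : ℕ} {S : Type} [Fact p.Prime] [AddCommGroup S] [Module (ZMod p) S]
    {τ : Representation (ZMod p) Gal(Qb/ℚ) S} {c : Gal(Qb/ℚ)} (h : ∀ v, τ c v = -v) (v : S) :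
    comms c ≤ stab τ v := by
  unfold comms
  rw [Subgroup.closure_le]
  rintro _ ⟨g, rfl⟩
  show τ (g * c * g⁻¹ * c⁻¹) v = v
  have h1 : ∀ v, τ c⁻¹ v = -v := by
    intro v
    have h2 : τ c⁻¹ (τ c v) = v := by
      rw [← Module.End.mul_apply, ← map_mul, inv_mul_cancel, map_one]
      rfl
    have h3 : τ c⁻¹ (τ c v) = τ c⁻¹ (-v) := by rw [h v]
    rw [h2, map_neg] at h3
    rw [← neg_eq_iff_eq_neg]
    exact h3.symm
  rw [map_mul, map_mul, map_mul, Module.End.mul_apply, Module.End.mul_apply, Module.End.mul_apply, h1,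
    map_neg, h, neg_neg, ← Module.End.mul_apply, ← map_mul, mul_inv_cancel, map_one]
  rfl

theorem two_ne {p : ℕ} [hp : Fact p.Prime] (hp2 : p ≠ 2) {S : Type} [AddCommGroup S] [Module (ZMod p) S]
    {v : S} (h : -v = v) : v = 0 := by
  have h1 : (2 : ZMod p) • v = 0 := by
    rw [two_smul]
    nth_rewrite 1 [← h]
    exact neg_add_cancel v
  have h2 : (2 : ZMod p) ≠ 0 := by
    intro h3
    have h4 : ((2 : ℕ) : ZMod p) = 0 := by exact_mod_cast h3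
    rw [ZMod.natCast_eq_zero_iff] at h4
    exact hp2 ((Nat.prime_dvd_prime_iff_eq hp.out Nat.prime_two).1 h4)
  exact (smul_eq_zero.1 h1).resolve_left h2

/-- The layers. -/
def Layers (p : ℕ) : Set (IntermediateField ℚ Qb) := {R | ∃ m, IsLayer p m R}

theorem lay_layers {p : ℕ} (hp : p.Prime) : Lay p (Layers p) := by
  rintro R ⟨m, hR⟩
  exact ⟨layer_fd hp hR, layer_galois hp hR, hR.2⟩

theorem muS_iff {p : ℕ} (hp : p.Prime) (F : IntermediateField ℚ Qb) [FiniteDimensional ℚ F] :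
    MuS p inertia (Layers p) F.fixingSubgroup ↔ MuZero p F := by
  refine exists_congr fun C => ⟨fun h m R hR => ?_, fun h R hR => ?_⟩
  · have := layer_fd hp hR
    rw [← rankLe_iff, fixingSubgroup_sup]
    exact h R ⟨m, hR⟩
  · obtain ⟨m, hR⟩ := hR
    have := layer_fd hp hR
    have h1 := h m R hR
    rwa [← rankLe_iff, fixingSubgroup_sup] at h1

/-- All the embeddings are conjugate. -/
theorem exists_emb (ι φ : Qb →+* ℂ) : ∃ g : Gal(Qb/ℚ), ∀ x, ι (g x) = φ x := by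
  let _ : Algebra Qb ℂ := ι.toAlgebra
  have : IsScalarTower ℚ Qb ℂ := IsScalarTower.of_algebraMap_eq fun r => by
    show _ = ι (algebraMap ℚ Qb r)
    rw [eq_ratCast, eq_ratCast, map_ratCast]
  have hn : Normal ℚ Qb := inferInstance
  let φ' : Qb →ₐ[ℚ] ℂ := φ.toRatAlgHom
  let g : Qb →ₐ[ℚ] Qb := φ'.restrictNormal Qb
  have hg : ∀ x, ι (g x) = φ x := fun x => AlgHom.restrictNormal_commutes φ' Qb x
  have hb : Function.Bijective g := Algebra.IsAlgebraic.algHom_bijective g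
  exact ⟨AlgEquiv.ofBijective g hb, hg⟩

theorem exists_iota : Nonempty (Qb →+* ℂ) :=
  ⟨(IsAlgClosed.lift (R := ℚ) (S := Qb) (M := ℂ)).toRingHom⟩

end Pool.Agent.U152.MU
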