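import Pool.Agent.W5h33.DF.Field

/-!
# The primes in the cyclotomic fields of `p`-power conductor

Every prime number has a bounded number of primes above it in the fields generated by the roots of
unity of `p`-power order.
-/

set_option autoImplicit false

namespace Pool.Agent.U152.MU

open IntermediateField Module Pool.Agent.Q60.MU Pool.Agent.W5h77.MB NumberField
open scoped Pointwise

/-- The field generated by the roots of unity whose order divides `p ^ N`. -/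
noncomputable def CY (p N : ℕ) : IntermediateField ℚ Qb := adjoin ℚ {z : Qb | z ^ p ^ N = 1}

theorem CY_mono {p N M : ℕ} (h : N ≤ M) : CY p N ≤ CY p M := by
  apply adjoin.mono
  intro z hz
  have h1 : z ^ p ^ N = 1 := hz
  show z ^ p ^ M = 1
  obtain ⟨k, rfl⟩ := Nat.exists_eq_add_of_le h
  rw [pow_add, pow_mul, h1, one_pow]

theorem isCyc (n : ℕ) [NeZero n] :
    IsCyclotomicExtension {n} ℚ ↥(adjoin ℚ {z : Qb | z ^ n = 1}) := by
  have h1 : adjoin ℚ {z : Qb | z ^ n = 1} = adjoin ℚ {b : Qb | ∃ m ∈ ({n} : Set ℕ), m ≠ 0 ∧ b ^ m = 1} := by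
    congr 1
    ext z
    constructor
    · intro hz
      exact ⟨n, rfl, NeZero.ne n, hz⟩
    · rintro ⟨m, rfl, -, hz⟩
      exact hz
  rw [h1]
  apply isCyclotomicExtension_adjoin_of_exists_isPrimitiveRoot
  intro m hm hm0
  have : NeZero (m : Qb) := ⟨by exact_mod_cast hm0⟩
  have hc : IsAlgClosed Qb := AlgebraicClosure.isAlgClosed ℚ
  obtain ⟨z, hz⟩ := IsAlgClosed.exists_root (Polynomial.cyclotomic m Qb) (by
    rw [Polynomial.degree_cyclotomic]
    exact_mod_cast (Nat.totient_pos.2 (Nat.pos_of_ne_zero hm0)).ne')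
  exact ⟨z, Polynomial.isRoot_cyclotomic_iff.1 hz⟩

/-- Two valuation rings with the same center on a number field are conjugate. -/
theorem conj_of_cent {ℓ : ℕ} (hℓ : ℓ.Prime) (M : IntermediateField ℚ Qb) [FiniteDimensional ℚ M]
    {A B : ValuationSubring Qb} (hA : (ℓ : Qb) ∈ A.nonunits) (hB : (ℓ : Qb) ∈ B.nonunits)
    (h : ∀ a : 𝓞 M, A.valuation ((a : M) : Qb) < 1 ↔ B.valuation ((a : M) : Qb) < 1) :
    ∃ g ∈ M.fixingSubgroup, A = g • B := by
  have hnf : NumberField M := ⟨⟩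
  have hint : ∀ (C : ValuationSubring Qb) (a : 𝓞 M), algebraMap (𝓞 M) M a ∈ C.comap (algebraMap M Qb) := by
    intro C a
    rw [ValuationSubring.mem_comap]
    apply integral_mem C
    exact (RingOfIntegers.isIntegral_coe a).map ((algebraMap M Qb).toIntAlgHom)
  have hne : ∀ C : ValuationSubring Qb, (ℓ : Qb) ∈ C.nonunits → C.comap (algebraMap M Qb) ≠ ⊤ := by
    intro C hC htop
    have h2 : ((ℓ : M))⁻¹ ∈ C.comap (algebraMap M Qb) := by rw [htop]; trivial
    rw [ValuationSubring.mem_comap, map_inv₀, map_natCast] at h2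
    rw [ValuationSubring.mem_nonunits_iff_or] at hC
    rcases hC with h3 | h3
    · exact hℓ.ne_zero (by exact_mod_cast h3)
    · exact h3 h2
  have h2 : A.comap (algebraMap M Qb) = B.comap (algebraMap M Qb) := by
    apply Pool.Agent.H639R3.eq_of_cent_eq _ _ (hint A) (hint B) (hne A hA) (hne B hB)
    ext a
    rw [Pool.Agent.H639R3.mem_cent, Pool.Agent.H639R3.mem_cent, Pool.Agent.H639R3.comap_val_lt_one,
      Pool.Agent.H639R3.comap_val_lt_one]
    exact h a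
  obtain ⟨σ, hσ⟩ := Pool.Agent.H639R3.exists_aut (F := M) (L := Qb) (A := 𝓞 M) B A (hint B)
    (hne B hB) h2.symm
  let τ : Gal(Qb/ℚ) := σ.restrictScalars ℚ
  have hτM : τ ∈ M.fixingSubgroup := by
    rw [IntermediateField.mem_fixingSubgroup_iff]
    intro x hx
    exact σ.commutes (⟨x, hx⟩ : M)
  refine ⟨τ⁻¹, inv_mem hτM, ?_⟩
  ext a
  rw [ValuationSubring.mem_pointwise_smul_iff_inv_smul_mem, inv_inv, hσ]
  rfl

/-- The orbits of the primes above `ℓ`. -/
theorem orbits_le {ℓ : ℕ} [hℓ : Fact ℓ.Prime] (M : IntermediateField ℚ Qb) [FiniteDimensional ℚ M] {t : ℕ}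
    (ht : (Ideal.primesOver (Ideal.span {(ℓ : ℤ)}) (𝓞 M)).ncard ≤ t) :
    ∃ T : Finset (ValuationSubring Qb), T.card ≤ t ∧
      ∀ A : ValuationSubring Qb, (ℓ : Qb) ∈ A.nonunits →
        ∃ B ∈ T, ∃ σ ∈ M.fixingSubgroup, A = σ • B := by
  classical
  have hnf : NumberField M := ⟨⟩
  have hint : ∀ (C : ValuationSubring Qb) (a : 𝓞 M), algebraMap (𝓞 M) M a ∈ C.comap (algebraMap M Qb) := by
    intro C a
    rw [ValuationSubring.mem_comap]
    apply integral_mem C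
    exact (RingOfIntegers.isIntegral_coe a).map ((algebraMap M Qb).toIntAlgHom)
  let c : ValuationSubring Qb → Ideal (𝓞 M) := fun A =>
    Pool.Agent.H639R3.cent (A.comap (algebraMap M Qb)) (hint A)
  have hc : ∀ (A : ValuationSubring Qb) (a : 𝓞 M), a ∈ c A ↔ A.valuation ((a : M) : Qb) < 1 := by
    intro A a
    rw [Pool.Agent.H639R3.mem_cent, Pool.Agent.H639R3.comap_val_lt_one]
    rfl
  have hmem : ∀ A : ValuationSubring Qb, (ℓ : Qb) ∈ A.nonunits →
      c A ∈ Ideal.primesOver (Ideal.span {(ℓ : ℤ)}) (𝓞 M) := by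
    intro A hA
    have hp : (c A).IsPrime := Pool.Agent.H639R3.cent_isPrime _ _
    refine ⟨hp, ?_⟩
    have hmax : (Ideal.span {(ℓ : ℤ)}).IsMaximal :=
      Int.ideal_span_isMaximal_of_prime ℓ
    constructor
    apply hmax.eq_of_le
    · exact Ideal.IsPrime.ne_top inferInstance
    · rw [Ideal.span_singleton_le_iff_mem, Ideal.under_def, Ideal.mem_comap, hc]
      have h1 : (((algebraMap ℤ (𝓞 M) (ℓ : ℤ) : 𝓞 M) : M) : Qb) = (ℓ : Qb) := by
        simp
      rw [h1]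
      exact (ValuationSubring.mem_nonunits_iff A).1 hA
  have hfin : (Ideal.primesOver (Ideal.span {(ℓ : ℤ)}) (𝓞 M)).Finite := by
    apply IsDedekindDomain.primesOver_finite
  let f : Ideal (𝓞 M) → ValuationSubring Qb := fun P =>
    if h : ∃ A : ValuationSubring Qb, (ℓ : Qb) ∈ A.nonunits ∧ c A = P then h.choose else ⊤
  refine ⟨hfin.toFinset.image f, Finset.card_image_le.trans ?_, fun A hA => ?_⟩
  · rw [← Set.ncard_eq_toFinset_card _ hfin]
    exact ht
  · have hex : ∃ B : ValuationSubring Qb, (ℓ : Qb) ∈ B.nonunits ∧ c B = c A := ⟨A, hA, rfl⟩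
    refine ⟨f (c A), Finset.mem_image_of_mem f (hfin.mem_toFinset.2 (hmem A hA)), ?_⟩
    have hf : f (c A) = hex.choose := dif_pos hex
    rw [hf]
    obtain ⟨h1, h2⟩ := hex.choose_spec
    refine conj_of_cent hℓ.out M hA h1 fun a => ?_
    rw [← hc, ← hc, h2]

/-- The order of `ℓ` modulo `p ^ N` is large. -/
theorem order_large {p ℓ : ℕ} (hp : p.Prime) (hℓ : ℓ.Prime) (hne : ℓ ≠ p) (N : ℕ) :
    p ^ N ≤ ℓ ^ p * orderOf (ℓ : ZMod (p ^ N)) := by
  have hpf : Fact p.Prime := ⟨hp⟩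
  have hcop : Nat.Coprime ℓ (p ^ N) := Nat.Coprime.pow_right N ((Nat.coprime_primes hℓ hp).2 hne)
  set f := orderOf (ℓ : ZMod (p ^ N)) with hf
  have hnz : NeZero (p ^ N) := ⟨(pow_pos hp.pos N).ne'⟩
  have hf0 : f ≠ 0 := by
    have h1 : (ℓ : ZMod (p ^ N)) = (ZMod.unitOfCoprime ℓ hcop : (ZMod (p ^ N))ˣ) := rfl
    rw [hf, h1, orderOf_units]
    exact (orderOf_pos _).ne'
  have hpl : ¬ p ∣ ℓ := fun h => hne ((Nat.prime_dvd_prime_iff_eq hp hℓ).1 h).symm
  have hdvd : p ^ N ∣ ℓ ^ f - 1 := by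
    have h1 : ((ℓ : ZMod (p ^ N))) ^ f = 1 := pow_orderOf_eq_one _
    have h2 : ((ℓ ^ f : ℕ) : ZMod (p ^ N)) = ((1 : ℕ) : ZMod (p ^ N)) := by
      rw [Nat.cast_pow, h1, Nat.cast_one]
    exact (Nat.modEq_iff_dvd' (Nat.one_le_pow _ _ hℓ.pos)).1 ((ZMod.natCast_eq_natCast_iff _ _ _).1 h2).symm
  have hdvd2 : ∀ k, p ^ N ∣ ℓ ^ (f * k) - 1 := fun k => hdvd.trans (by
    rw [pow_mul]
    exact Nat.sub_one_dvd_pow_sub_one _ _)
  have hl1 := hℓ.two_le
  -- it is enough to find a divisor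
  have key : ∀ b k : ℕ, 0 < b → b ≤ ℓ ^ p → 0 < k → ℓ ^ (f * k) - 1 ≠ 0 →
      padicValNat p (ℓ ^ (f * k) - 1) ≤ padicValNat p (b * f) → p ^ N ≤ ℓ ^ p * f := by
    intro b k hb hbl hk hk0 hv
    have h1 : p ^ N ∣ b * f := by
      rw [padicValNat_dvd_iff_le (mul_ne_zero hb.ne' hf0)]
      refine le_trans ?_ hv
      rw [← padicValNat_dvd_iff_le hk0]
      exact hdvd2 k
    exact (Nat.le_of_dvd (Nat.pos_of_ne_zero (mul_ne_zero hb.ne' hf0)) h1).trans
      (Nat.mul_le_mul_right f hbl)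
  rcases hp.eq_two_or_odd' with h2 | hodd
  · subst h2
    have hlodd : ¬ 2 ∣ ℓ := hpl
    have hl3 : 3 ≤ ℓ := by
      by_contra h
      have : ℓ = 2 := by omega
      exact hne this
    have h3 : 2 ∣ ℓ - 1 := by omega
    have h4 := padicValNat.pow_two_sub_pow (x := ℓ) (y := 1) (by omega) h3 hlodd (n := f * 2)
      (by positivity) (even_two.mul_left f)
    rw [one_pow] at h4
    refine key ((ℓ + 1) * (ℓ - 1)) 2 (Nat.mul_pos (by omega) (by omega)) ?_ two_pos ?_ ?_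
    · rw [pow_two]
      have : (ℓ + 1) * (ℓ - 1) = ℓ * ℓ - 1 := by
        have := Nat.sq_sub_sq ℓ 1
        rw [one_pow, pow_two] at this
        exact this.symm
      omega
    · have : 1 < ℓ ^ (f * 2) := Nat.one_lt_pow (by positivity) (by omega)
      omega
    · rw [padicValNat.mul (Nat.mul_pos (by omega) (by omega)).ne' hf0,
        padicValNat.mul (by omega) (by omega)]
      rw [padicValNat.mul hf0 two_ne_zero, padicValNat.self one_lt_two] at h4
      omega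
  · have h3 : ℓ ^ (p - 1) ≡ 1 [MOD p] := by
      have h5 := ZMod.pow_card_sub_one_eq_one (p := p) (a := (ℓ : ZMod p)) (by
        rw [Ne, ZMod.natCast_eq_zero_iff]
        exact hpl)
      rw [← ZMod.natCast_eq_natCast_iff, Nat.cast_pow, h5, Nat.cast_one]
    have hp1 : p - 1 ≠ 0 := by
      have := hp.two_le
      omega
    have h4 : 1 < ℓ ^ (p - 1) := Nat.one_lt_pow hp1 (by omega)
    have h5 : p ∣ ℓ ^ (p - 1) - 1 := (Nat.modEq_iff_dvd' h4.le).1 h3.symm
    have h6 : ¬ p ∣ ℓ ^ (p - 1) := fun h => hpl (hp.dvd_of_dvd_pow h)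
    have h7 := padicValNat.pow_sub_pow (p := p) hodd (x := ℓ ^ (p - 1)) (y := 1) h4 h5 h6 hf0
    rw [one_pow, ← pow_mul, mul_comm (p - 1) f] at h7
    refine key (ℓ ^ (p - 1) - 1) (p - 1) (by omega) ?_ (Nat.pos_of_ne_zero hp1) ?_ ?_
    · refine (Nat.sub_le _ _).trans (Nat.pow_le_pow_right hℓ.pos (Nat.sub_le _ _))
    · have : 1 < ℓ ^ (f * (p - 1)) := Nat.one_lt_pow (mul_ne_zero hf0 hp1) (by omega)
      omega
    · rw [h7, padicValNat.mul (by omega) hf0]

/-- The number of primes above `ℓ` in the cyclotomic field. -/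
theorem ncard_le {p ℓ : ℕ} (hp : p.Prime) [hℓ : Fact ℓ.Prime] (N : ℕ)
    (M : Type) [Field M] [NumberField M] [hM : IsCyclotomicExtension {p ^ (N + 1)} ℚ M] :
    (Ideal.primesOver (Ideal.span {(ℓ : ℤ)}) (𝓞 M)).ncard ≤ ℓ ^ p := by
  have hpf : Fact p.Prime := ⟨hp⟩
  by_cases h : ℓ = p
  · subst h
    rw [IsCyclotomicExtension.Rat.ncard_primesOver_of_prime_pow ℓ N M]
    exact Nat.one_le_pow _ _ hp.pos
  · have hnz : NeZero (p ^ (N + 1)) := ⟨(pow_pos hp.pos _).ne'⟩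
    have hgal : IsGalois ℚ M := IsCyclotomicExtension.isGalois {p ^ (N + 1)} ℚ M
    have hnd : ¬ ℓ ∣ p ^ (N + 1) := fun h1 =>
      h ((Nat.prime_dvd_prime_iff_eq hℓ.out hp).1 (hℓ.out.dvd_of_dvd_pow h1))
    have h1 := Ideal.ncard_primesOver_mul_ramificationIdxIn_mul_inertiaDegIn
      (Ideal.span {(ℓ : ℤ)}) (𝓞 M) Gal(M/ℚ)
    rw [IsCyclotomicExtension.Rat.inertiaDegIn_eq_of_not_dvd (p := ℓ) (m := p ^ (N + 1)) M hnd,
      IsCyclotomicExtension.Rat.ramificationIdxIn_eq_of_not_dvd (p := ℓ) (m := p ^ (N + 1)) M hnd, one_mul,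
      IsGalois.card_aut_eq_finrank, IsCyclotomicExtension.finrank (n := p ^ (N + 1)) M
        (Polynomial.cyclotomic.irreducible_rat (pow_pos hp.pos _))] at h1
    have h2 := order_large hp hℓ.out h (N + 1)
    set f := orderOf (ℓ : ZMod (p ^ (N + 1))) with hf
    have h3 : (p ^ (N + 1)).totient ≤ p ^ (N + 1) := Nat.totient_le _
    have hf0 : 0 < f := by
      by_contra h0
      have h4 : f = 0 := by omega
      rw [h4, mul_zero] at h1
      exact (Nat.totient_pos.2 (pow_pos hp.pos (N + 1))).ne h1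
    rw [← h1] at h3
    exact Nat.le_of_mul_le_mul_right (h3.trans h2) hf0

theorem fin_cyc {p : ℕ} (hp : p.Prime) (ℓ : ℕ) (hℓ : ℓ.Prime) :
    ∃ t, ∀ N, ∃ T : Finset (ValuationSubring Qb), T.card ≤ t ∧
      ∀ A : ValuationSubring Qb, (ℓ : Qb) ∈ A.nonunits →
        ∃ B ∈ T, ∃ σ ∈ (CY p N).fixingSubgroup, A = σ • B := by
  have hℓf : Fact ℓ.Prime := ⟨hℓ⟩
  refine ⟨ℓ ^ p, fun N => ?_⟩
  have hnz : NeZero (p ^ (N + 1)) := ⟨(pow_pos hp.pos _).ne'⟩
  have hcyc : IsCyclotomicExtension {p ^ (N + 1)} ℚ ↥(CY p (N + 1)) := isCyc (p ^ (N + 1))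
  have hfd : FiniteDimensional ℚ ↥(CY p (N + 1)) :=
    IsCyclotomicExtension.finiteDimensional {p ^ (N + 1)} ℚ ↥(CY p (N + 1))
  have hnf : NumberField ↥(CY p (N + 1)) := ⟨⟩
  obtain ⟨T, hT, h⟩ := orbits_le (ℓ := ℓ) (CY p (N + 1)) (ncard_le hp N ↥(CY p (N + 1)))
  refine ⟨T, hT, fun A hA => ?_⟩
  obtain ⟨B, hB, σ, hσ, h1⟩ := h A hA
  exact ⟨B, hB, σ, fixingSubgroup_le (CY_mono (Nat.le_succ N)) hσ, h1⟩

end Pool.Agent.U152.MU
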