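import Pool.Agent.U152.MU.Det

/-!
# Abelian extensions of quadratic fields
-/

set_option autoImplicit false

namespace Pool.Agent.U152.MU

open Subgroup Module IntermediateField Pool.Agent.Q60.MU Pool.Agent.W5h77.MB
open Pool.Agent.X310.Mu (comms)
open scoped Pointwise commutatorElement

/-- A normal subgroup which is a `p`-group modulo the kernel acts trivially on a simple module. -/
theorem trivial_of_pgroup {p : ℕ} [hp : Fact p.Prime] {G : Type} [Group G] {U N : Subgroup G}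
    (hU : U.Normal) (hN : N.Normal)
    (hpN : ∀ g ∈ N, ∃ j, g ^ p ^ j ∈ U) {S : Type} [AddCommGroup S] [Module (ZMod p) S]
    [Module.Finite (ZMod p) S] (τ : Representation (ZMod p) G S) (hτ : ∀ g ∈ U, ∀ x, τ g x = x)
    (hs : IsSimple τ) : ∀ g ∈ N, ∀ x, τ g x = x := by
  classical
  have hnt : Nontrivial S := hs.1
  let π := QuotientGroup.mk' U
  let P : Subgroup (G ⧸ U) := N.map π
  let τ' : (G ⧸ U) →* Module.End (ZMod p) S := QuotientGroup.lift U τ (fun g hg => by
    apply LinearMap.ext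
    intro x
    exact hτ g hg x)
  have hP : IsPGroup p P := by
    rintro ⟨_, g, hg, rfl⟩
    obtain ⟨j, hj⟩ := hpN g hg
    refine ⟨j, Subtype.ext ?_⟩
    show (π g) ^ p ^ j = 1
    rw [← map_pow]
    exact (QuotientGroup.eq_one_iff _).2 hj
  let ρ : Representation (ZMod p) P S := τ'.comp P.subtype
  obtain ⟨v, hv, hfix⟩ := exists_fixed hP ρ
  have hfixN : ∀ g ∈ N, τ g v = v := fun g hg => hfix ⟨π g, g, hg, rfl⟩
  -- the fixed vectors of `N`
  let W : Submodule (ZMod p) S :=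
    { carrier := {x | ∀ g ∈ N, τ g x = x}
      add_mem' := by
        intro a b ha hb g hg
        rw [map_add, ha g hg, hb g hg]
      zero_mem' := by
        intro g hg
        rw [map_zero]
      smul_mem' := by
        intro r a ha g hg
        rw [map_smul, ha g hg] }
  have hW : Stable τ W := by
    intro g x hx n hn
    have h1 := hx _ (hN.conj_mem n hn g⁻¹)
    have h2 : n * g = g * (g⁻¹ * n * g⁻¹⁻¹) := by group
    rw [← Module.End.mul_apply, ← map_mul, h2, map_mul, Module.End.mul_apply, h1]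
  rcases hs.2 W hW with h | h
  · exfalso
    have h1 : v ∈ W := hfixN
    rw [h, Submodule.mem_bot] at h1
    exact hv h1
  · intro g hg x
    have h1 : x ∈ W := by rw [h]; trivial
    exact h1 g hg

/-- The `p`-primary part of an abelian normal subgroup. -/
theorem exists_PP {p : ℕ} [hp : Fact p.Prime] {G : Type} [Group G] {U H : Subgroup G} (hU : U.Normal)
    (hH : H.Normal) (hUf : U.index ≠ 0) (hUH : U ≤ H) (hab : ∀ a ∈ H, ∀ b ∈ H, ⁅a, b⁆ ∈ U) :
    ∃ N : Subgroup G, N.Normal ∧ U ≤ N ∧ N ≤ H ∧ (∀ g ∈ N, ∃ j, g ^ p ^ j ∈ U) ∧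
      ¬ p ∣ N.relIndex H := by
  classical
  have hfi : U.FiniteIndex := ⟨hUf⟩
  have hfin : Finite (G ⧸ U) := inferInstance
  let π := QuotientGroup.mk' U
  have hπ : Function.Surjective π := QuotientGroup.mk'_surjective U
  let H' : Subgroup (G ⧸ U) := H.map π
  have hH' : H'.Normal := hH.map π hπ
  let P : Sylow p H' := default
  have hcomm : ∀ a b : H', a * b = b * a := by
    rintro ⟨_, a, ha, rfl⟩ ⟨_, b, hb, rfl⟩
    apply Subtype.ext
    show π a * π b = π b * π a
    rw [← commutatorElement_eq_one_iff_mul_comm, ← map_commutatorElement]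
    exact (QuotientGroup.eq_one_iff _).2 (hab a ha b hb)
  have hPn : (P : Subgroup H').Normal := ⟨fun x hx g => by
    rw [hcomm g x, mul_inv_cancel_right]
    exact hx⟩
  have hPc : (P : Subgroup H').Characteristic := Sylow.characteristic_of_normal P hPn
  have hPm : ((P : Subgroup H').map H'.subtype).Normal := inferInstance
  refine ⟨((P : Subgroup H').map H'.subtype).comap π, hPm.comap π, ?_, ?_, ?_, ?_⟩
  · intro x hx
    rw [mem_comap]
    have h1 : π x = 1 := (QuotientGroup.eq_one_iff x).2 hx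
    rw [h1]
    exact one_mem _
  · intro x hx
    obtain ⟨y, -, hy⟩ := mem_comap.1 hx
    have h1 : π x ∈ H' := by
      rw [← hy]
      exact y.2
    obtain ⟨z, hz, hzx⟩ := h1
    have h2 : z⁻¹ * x ∈ U := QuotientGroup.eq.1 hzx
    have h3 := H.mul_mem hz (hUH h2)
    rwa [mul_inv_cancel_left] at h3
  · intro x hx
    obtain ⟨y, hyP, hy⟩ := mem_comap.1 hx
    obtain ⟨j, hj⟩ := P.isPGroup' ⟨y, hyP⟩
    refine ⟨j, ?_⟩
    have h1 : y ^ p ^ j = 1 := congrArg Subtype.val hj
    have h2 : (π x) ^ p ^ j = 1 := by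
      rw [← hy, ← map_pow, h1, map_one]
    rw [← map_pow] at h2
    exact (QuotientGroup.eq_one_iff _).1 h2
  · have h1 := P.not_dvd_index
    have h2 : (((P : Subgroup H').map H'.subtype).comap π).relIndex H = (P : Subgroup H').index := by
      rw [relIndex_comap]
      show ((P : Subgroup H').map H'.subtype).relIndex H' = _
      show (((P : Subgroup H').map H'.subtype).comap H'.subtype).index = _
      rw [comap_map_eq_self_of_injective H'.subtype_injective]
    rw [h2]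
    exact h1

section quad
variable {k K : IntermediateField ℚ Qb} {c : Gal(Qb/ℚ)}

theorem quad_normal (hk : finrank ℚ k = 2) : k.fixingSubgroup.Normal := by
  have hfd : FiniteDimensional ℚ k := FiniteDimensional.of_finrank_pos (by rw [hk]; norm_num)
  have h2 : k.fixingSubgroup.index = 2 := by
    rw [← finrank_eq_fixingSubgroup_index, hk]
  exact Subgroup.normal_of_index_eq_two h2

/-- The commutators are trivial on an abelian extension. -/
theorem comm_mem (hab : ∀ σ ∈ k.fixingSubgroup, ∀ τ ∈ k.fixingSubgroup, ∀ x ∈ K, σ (τ x) = τ (σ x))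
    (hkK : k ≤ K) : ∀ a ∈ k.fixingSubgroup, ∀ b ∈ k.fixingSubgroup, ⁅a, b⁆ ∈ K.fixingSubgroup := by
  intro a ha b hb
  rw [IntermediateField.mem_fixingSubgroup_iff]
  have hst : ∀ σ ∈ k.fixingSubgroup, ∀ x ∈ K, σ x ∈ K := by
    intro σ hσ x hx
    rw [← InfiniteGalois.fixedField_fixingSubgroup K, mem_fixedField_iff]
    intro f hf
    have hfk : f ∈ k.fixingSubgroup := fixingSubgroup_le hkK hf
    rw [hab f hfk σ hσ x hx, (mem_fixingSubgroup_iff K f).1 hf x hx]
  intro x hx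
  have h1 : b⁻¹ x ∈ K := hst _ (inv_mem hb) x hx
  have h2 : a⁻¹ (b⁻¹ x) ∈ K := hst _ (inv_mem ha) _ h1
  have h3 : ⁅a, b⁆ x = a (b (a⁻¹ (b⁻¹ x))) := rfl
  rw [h3, hab a ha b hb _ h2]
  have h4 : a (a⁻¹ (b⁻¹ x)) = b⁻¹ x := by
    rw [← AlgEquiv.mul_apply, mul_inv_cancel, AlgEquiv.one_apply]
  rw [h4, ← AlgEquiv.mul_apply, mul_inv_cancel, AlgEquiv.one_apply]

theorem comm_back {U : Subgroup Gal(Qb/ℚ)}
    (h : ∀ a ∈ k.fixingSubgroup, ∀ b ∈ k.fixingSubgroup, ⁅a, b⁆ ∈ U) :
    ∀ σ ∈ k.fixingSubgroup, ∀ τ ∈ k.fixingSubgroup, ∀ x ∈ fixedField U, σ (τ x) = τ (σ x) := by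
  intro σ hσ τ hτ x hx
  rw [mem_fixedField_iff] at hx
  have h1 := hx _ (h σ⁻¹ (inv_mem hσ) τ⁻¹ (inv_mem hτ))
  have h2 : σ (τ x) = τ (σ (⁅σ⁻¹, τ⁻¹⁆ x)) := by
    rw [← AlgEquiv.mul_apply, ← AlgEquiv.mul_apply, ← AlgEquiv.mul_apply]
    congr 1
    rw [commutatorElement_def]
    group
  rw [h2, h1]

/-- The normal closure of an abelian extension of a quadratic field. -/
theorem exists_closure (hk : finrank ℚ k = 2) (hkc : c ∉ k.fixingSubgroup) (hcc : c * c = 1)
    [FiniteDimensional ℚ K] (hkK : k ≤ K)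
    (hab : ∀ σ ∈ k.fixingSubgroup, ∀ τ ∈ k.fixingSubgroup, ∀ x ∈ K, σ (τ x) = τ (σ x)) :
    ∃ L : IntermediateField ℚ Qb, K ≤ L ∧ FiniteDimensional ℚ L ∧ IsGalois ℚ L ∧
      ∀ σ ∈ k.fixingSubgroup, ∀ τ ∈ k.fixingSubgroup, ∀ x ∈ L, σ (τ x) = τ (σ x) := by
  have hHn := quad_normal hk
  have hci : c⁻¹ = c := inv_eq_of_mul_eq_one_right hcc
  have hcm := comm_mem hab hkK
  set U := K.fixingSubgroup with hU
  have hUH : U ≤ k.fixingSubgroup := fixingSubgroup_le hkK
  let V : Subgroup Gal(Qb/ℚ) := U ⊓ U.comap (MulAut.conj c).toMonoidHom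
  have hV : ∀ x, x ∈ V ↔ x ∈ U ∧ c * x * c⁻¹ ∈ U := fun x => Iff.rfl
  have hUf : U.index ≠ 0 := index_ne_zero' K
  have hVf : V.index ≠ 0 := by
    apply index_inf_ne_zero hUf
    rw [index_comap_of_surjective _ (MulAut.conj c).surjective]
    exact hUf
  have hVo : IsOpen (V : Set Gal(Qb/ℚ)) := by
    show IsOpen ((U : Set Gal(Qb/ℚ)) ∩ {x | c * x * c⁻¹ ∈ U})
    refine K.fixingSubgroup_isOpen.inter ?_
    exact K.fixingSubgroup_isOpen.preimage ((continuous_const.mul continuous_id).mul continuous_const)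
  have hcV : ∀ a ∈ k.fixingSubgroup, ∀ b ∈ k.fixingSubgroup, ⁅a, b⁆ ∈ V := by
    intro a ha b hb
    refine (hV _).2 ⟨hcm a ha b hb, ?_⟩
    have h1 := hcm _ (hHn.conj_mem a ha c) _ (hHn.conj_mem b hb c)
    have h2 : c * ⁅a, b⁆ * c⁻¹ = ⁅c * a * c⁻¹, c * b * c⁻¹⁆ := by
      rw [commutatorElement_def, commutatorElement_def]
      group
    rw [h2]
    exact h1
  have hVn : V.Normal := by
    refine ⟨fun x hx g => ?_⟩
    have hH : ∀ s ∈ k.fixingSubgroup, ∀ y ∈ V, s * y * s⁻¹ ∈ V := by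
      intro s hs y hy
      have h1 : s * y * s⁻¹ = ⁅s, y⁆ * y := by
        rw [commutatorElement_def]
        group
      rw [h1]
      exact V.mul_mem (hcV s hs y (hUH hy.1)) hy
    have hcy : ∀ y ∈ V, c * y * c⁻¹ ∈ V := by
      intro y hy
      refine (hV _).2 ⟨((hV y).1 hy).2, ?_⟩
      have h1 : c * (c * y * c⁻¹) * c⁻¹ = y := by
        have h2 : c * (c * y * c⁻¹) * c⁻¹ = (c * c) * y * (c * c)⁻¹ := by group
        rw [h2, hcc, one_mul, inv_one, mul_one]
      rw [h1]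
      exact hy.1
    rcases quad_cases hk hkc g with hg | ⟨s, hs, rfl⟩
    · exact hH g hg x hx
    · have h1 : s * c * x * (s * c)⁻¹ = s * (c * x * c⁻¹) * s⁻¹ := by group
      rw [h1]
      exact hH s hs _ (hcy x hx)
  have hfix := fix_fixed hVo
  refine ⟨fixedField V, (le_iff_le _ _).2 (inf_le_left), finite_fixed hVo hVf,
    (InfiniteGalois.normal_iff_isGalois (fixedField V)).1 (by rw [hfix]; exact hVn), comm_back hcV⟩

end quad

end Pool.Agent.U152.MU
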