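import Pool.Agent.X310.MuCx
import Pool.Agent.X310.MuInf
import Pool.Agent.X27.Cln.Rank

/-!
# Domination for the ranks of the class groups modulo the primes above `p`
-/

set_option autoImplicit false
set_option linter.unusedSectionVars false
set_option linter.style.haveILetI false

namespace Pool.Agent.U152.MU

open NumberField Ideal Pool.Agent.H471R2 IntermediateField Pool.Agent.X27.Cln Pool.Agent.X310.Mu

section
variable (p : ℕ) (L : Type) [Field L] [NumberField L]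

/-- The class group modulo the classes of the primes above `p`. -/
abbrev CA : Type := ClassGroup (𝓞 L) ⧸ Sp p L

/-- The `p`-th powers. -/
noncomputable abbrev pw : Subgroup (CA p L) := (powMonoidHom p : CA p L →* CA p L).range

/-- The class group modulo the primes above `p` and the `p`-th powers. -/
abbrev CM : Type := CA p L ⧸ pw p L

theorem card_CM : Nat.card (CM p L) = rk p L := (rk_eq_index p L).symm

variable {p L}

theorem CM_pow (x : CM p L) : x ^ p = 1 := by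
  obtain ⟨y, rfl⟩ := QuotientGroup.mk'_surjective _ x
  rw [← map_pow]
  exact (QuotientGroup.eq_one_iff _).2 ⟨y, rfl⟩

/-- The class of a class. -/
noncomputable def cm : ClassGroup (𝓞 L) →* CM p L := (QuotientGroup.mk' (pw p L)).comp (QuotientGroup.mk' (Sp p L))

theorem cm_surj : Function.Surjective (cm : ClassGroup (𝓞 L) →* CM p L) :=
  (QuotientGroup.mk'_surjective _).comp (QuotientGroup.mk'_surjective _)

theorem cm_eq_one (c : ClassGroup (𝓞 L)) :
    (cm c : CM p L) = 1 ↔ ∃ y : ClassGroup (𝓞 L), (y ^ p)⁻¹ * c ∈ Sp p L := by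
  constructor
  · intro h
    obtain ⟨z, hz⟩ := (QuotientGroup.eq_one_iff (QuotientGroup.mk' (Sp p L) c)).1 h
    obtain ⟨y, rfl⟩ := QuotientGroup.mk'_surjective _ z
    refine ⟨y, ?_⟩
    have h1 : QuotientGroup.mk' (Sp p L) (y ^ p) = QuotientGroup.mk' (Sp p L) c := by
      rw [map_pow]
      exact hz
    exact QuotientGroup.eq.1 h1
  · rintro ⟨y, hy⟩
    refine (QuotientGroup.eq_one_iff (QuotientGroup.mk' (Sp p L) c)).2 ⟨QuotientGroup.mk' (Sp p L) y, ?_⟩
    have h1 : QuotientGroup.mk' (Sp p L) (y ^ p) = QuotientGroup.mk' (Sp p L) c := QuotientGroup.eq.2 hy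
    rw [map_pow] at h1
    exact h1

end

section ext
variable {p : ℕ} [hp : Fact p.Prime] (K L : Type) [Field K] [NumberField K] [Field L] [NumberField L]
  [Algebra K L]

/-- The extension of ideals. -/
noncomputable def cext : CM p K →* CM p L :=
  QuotientGroup.map _ _ (extq' (L := L) (p := p) K) (by
    rintro _ ⟨y, rfl⟩
    exact ⟨extq' K y, (map_pow _ _ _).symm⟩)

theorem cext_cm (c : ClassGroup (𝓞 K)) :
    cext K L (cm c : CM p K) = cm (ClassGroup.extendedHom (𝓞 K) (𝓞 L) c) := rfl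

/-- The norm of a relation. -/
theorem norm_rel {c : ClassGroup (𝓞 K)} {y : ClassGroup (𝓞 L)}
    (h : (y ^ p)⁻¹ * ClassGroup.extendedHom (𝓞 K) (𝓞 L) c ∈ Sp p L) :
    ∃ z : ClassGroup (𝓞 K), (z ^ p)⁻¹ * c ^ Module.finrank K L ∈ Sp p K := by
  obtain ⟨J, hJ, rfl⟩ := cl_surj c
  obtain ⟨A, hA, rfl⟩ := cl_surj y
  have hinj : Function.Injective (algebraMap (𝓞 K) (𝓞 L)) := FaithfulSMul.algebraMap_injective _ _
  have hJm : J.map (algebraMap (𝓞 K) (𝓞 L)) ≠ ⊥ := by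
    rwa [Ne, Ideal.map_eq_bot_iff_of_injective hinj]
  have h1 : ClassGroup.extendedHom (𝓞 K) (𝓞 L) (cl J hJ) = cl (J.map (algebraMap (𝓞 K) (𝓞 L))) hJm := by
    unfold cl
    rw [ClassGroup.extendedHom_mk0]
  have clpow : ∀ {M : Type} [Field M] [NumberField M] (I : Ideal (𝓞 M)) (hI : I ≠ ⊥) (n : ℕ),
      cl I hI ^ n = cl (I ^ n) (pow_ne_zero n hI) := by
    intro M _ _ I hI n
    unfold cl
    rw [← map_pow]
    rfl
  rw [h1, clpow, mem_Sp_iff] at h
  obtain ⟨n, I, hI, hId, hIc⟩ := h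
  have h2 : cl (A ^ p * I) (mul_ne_zero (pow_ne_zero p hA) hI) = cl (J.map (algebraMap (𝓞 K) (𝓞 L))) hJm := by
    rw [cl_mul _ _ (pow_ne_zero p hA) hI, hIc, mul_inv_cancel_left]
  rw [cl_eq_cl_iff] at h2
  obtain ⟨x, z, hx, hz, hxz⟩ := h2
  have hdeg : Module.finrank (𝓞 K) (𝓞 L) = Module.finrank K L :=
    (IsFractionRing.finrank_eq (𝓞 K) K (𝓞 L) L).symm
  have h3 := congrArg (relNorm (𝓞 K)) hxz
  rw [map_mul, map_mul, map_mul, map_pow, relNorm_singleton, relNorm_singleton, relNorm_algebraMap,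
    hdeg] at h3
  have hNA : relNorm (𝓞 K) A ≠ ⊥ := by rwa [Ne, relNorm_eq_bot_iff]
  have hNI : relNorm (𝓞 K) I ≠ ⊥ := by rwa [Ne, relNorm_eq_bot_iff]
  have hNd : relNorm (𝓞 K) I ∣ (span {(p : 𝓞 K)}) ^ (Module.finrank K L * n) := by
    have h4 := map_dvd (relNorm (𝓞 K)) hId
    have h5 : (span {(p : 𝓞 L)}) ^ n = ((span {(p : 𝓞 K)}) ^ n).map (algebraMap (𝓞 K) (𝓞 L)) := by
      rw [Ideal.map_pow, Ideal.map_span, Set.image_singleton, map_natCast]
    rw [h5, relNorm_algebraMap, hdeg, ← pow_mul, mul_comm] at h4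
    exact h4
  have hne : ∀ x : 𝓞 L, x ≠ 0 → Algebra.intNorm (𝓞 K) (𝓞 L) x ≠ 0 := by
    intro x hx h0
    have h7 : relNorm (𝓞 K) (span {x}) = ⊥ := by
      rw [relNorm_singleton, h0, Ideal.span_singleton_eq_bot]
    rw [relNorm_eq_bot_iff, Ideal.span_singleton_eq_bot] at h7
    exact hx h7
  refine ⟨cl (relNorm (𝓞 K) A) hNA, ?_⟩
  have h5 : cl (relNorm (𝓞 K) A ^ p * relNorm (𝓞 K) I) (mul_ne_zero (pow_ne_zero p hNA) hNI) =
      cl (J ^ Module.finrank K L) (pow_ne_zero _ hJ) := by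
    rw [cl_eq_cl_iff]
    exact ⟨_, _, hne x hx, hne z hz, h3⟩
  rw [clpow, clpow, ← h5, cl_mul _ _ (pow_ne_zero p hNA) hNI, inv_mul_cancel_left]
  exact cl_mem_Sp _ _ hNI hNd

theorem cext_inj (hd : ¬ p ∣ Module.finrank K L) :
    Function.Injective (cext K L : CM p K →* CM p L) := by
  rw [injective_iff_map_eq_one]
  intro x hx
  obtain ⟨c, rfl⟩ := cm_surj x
  rw [cext_cm, cm_eq_one] at hx
  obtain ⟨y, hy⟩ := hx
  obtain ⟨z, hz⟩ := norm_rel K L hy
  have h1 : (cm c : CM p K) ^ Module.finrank K L = 1 := by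
    rw [← map_pow, cm_eq_one]
    exact ⟨z, hz⟩
  exact eq_one_of_cop hp.out hd (CM_pow _) h1

end ext

section act
variable {p : ℕ} [hp : Fact p.Prime] {L : Type} [Field L] [NumberField L]
variable (p) (F : Type) [Field F] [NumberField F] [Algebra F L]

theorem act_Sp (g : stab F L) (w : ClassGroup (𝓞 L)) (hw : w ∈ Sp p L) : act F g w ∈ Sp p L := by
  rw [mem_Sp_iff] at hw ⊢
  obtain ⟨n, J, hJ, hd, rfl⟩ := hw
  refine ⟨n, ia g.1 J, ia_ne_bot _ hJ, ?_, ?_⟩
  · obtain ⟨I, hI⟩ := hd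
    refine ⟨ia g.1 I, ?_⟩
    rw [← ia_mul, ← hI, ia_pow, ia_span, map_natCast]
  · rw [act_apply, ca_cl]

/-- The action modulo the primes above `p`. -/
noncomputable def aact : stab F L →* MulAut (CA p L) := qact (act F) (Sp p L) (act_Sp p F)

/-- The action modulo `p`-th powers. -/
noncomputable def mact : stab F L →* MulAut (CM p L) := qact (aact p F) (pw p L) (by
  rintro g _ ⟨y, rfl⟩
  exact ⟨aact p F g y, (map_pow (aact p F g) y p).symm⟩)

theorem mact_cm (g : stab F L) (c : ClassGroup (𝓞 L)) : mact p F g (cm c) = cm (act F g c) := rfl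

theorem nm_cm (D : Subgroup (stab F L)) (c : ClassGroup (𝓞 L)) :
    nm (mact p F) D (cm c) = cm (nm (act F) D c) := by
  classical
  haveI : Fintype D := Fintype.ofFinite D
  rw [nm_eq, nm_eq, map_prod]
  rfl

variable {p}

theorem rk_dom (E : IntermediateField ℚ L) [Normal ℚ E]
    {ι : Type} [Fintype ι] (H : Subgroup (F ≃ₐ[ℚ] F)) (D : ι → Subgroup (F ≃ₐ[ℚ] F))
    (h : (emb F L).fieldRange ⊔ E = ⊤)
    (hlift : ∀ γ : F ≃ₐ[ℚ] F, ∃ g : L ≃ₐ[ℚ] L, ∀ x : F, g (algebraMap F L x) = algebraMap F L (γ x))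
    (hE : ∀ x : E ≃ₐ[ℚ] E, ∃ k, x ^ p ^ k = 1) (hH : ¬ p ∣ Nat.card H) (hD : ∀ i, ¬ p ∣ Nat.card (D i))
    (hdom : Dominates p H D) :
    rk p (comp H E) ≤ (∏ i, rk p (comp (D i) E)) ^ Nat.card (F ≃ₐ[ℚ] F) := by
  classical
  haveI : Fintype (F ≃ₐ[ℚ] F) := Fintype.ofFinite _
  have hπ : Function.Surjective (resF F L) := by
    intro γ
    obtain ⟨g, hg⟩ := hlift γ
    exact ⟨⟨g, γ, hg⟩, resF_eq _ γ hg⟩
  obtain ⟨ψ, hψ⟩ := dom_inf hp.out CM_pow (mact p F) (resF F L) (resE F E) hπ (res_inj F E h) hE H D hH hD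
    hdom (fun i => CM p (comp (D i) E)) (fun i => cext _ L) (fun i x => by
      obtain ⟨c, rfl⟩ := cm_surj x
      rw [nm_cm]
      obtain ⟨d, hd⟩ := img_comp F E (D i) h _ (nm_mem_img F E (D i) c)
      rw [← hd]
      exact ⟨cm d, cext_cm _ _ d⟩)
    (cext (comp H E) L) (by
      intro g hg x
      obtain ⟨c, rfl⟩ := cm_surj x
      rw [cext_cm, mact_cm, act_apply]
      congr 1
      apply ca_ext
      have h1 : g.1 ∈ (comp H E).fixingSubgroup := by
        rw [← hat_map F E H]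
        exact ⟨g, hg, rfl⟩
      exact (IntermediateField.mem_fixingSubgroup_iff _ _).1 h1)
  haveI : Finite ((j : ι × (F ≃ₐ[ℚ] F)) → CM p (comp (D j.1) E)) := inferInstance
  haveI : Finite ψ.range := Finite.of_surjective ψ.rangeRestrict ψ.rangeRestrict_surjective
  let f : CM p (comp H E) → ψ.range := fun x => ⟨cext _ L x, hψ x⟩
  have hf : Function.Injective f := fun x y hxy =>
    cext_inj _ L (not_dvd_comp H E h hH) (congrArg Subtype.val hxy)
  rw [← card_CM]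
  refine (Nat.card_le_card_of_injective f hf).trans ?_
  refine (Nat.card_le_card_of_surjective ψ.rangeRestrict ψ.rangeRestrict_surjective).trans ?_
  rw [Nat.card_pi, Fintype.prod_prod_type, ← Finset.prod_pow]
  refine le_of_eq (Finset.prod_congr rfl fun i _ => ?_)
  change ∏ _y : (F ≃ₐ[ℚ] F), Nat.card (CM p (comp (D i) E)) = _
  rw [Finset.prod_const, Finset.card_univ, ← Nat.card_eq_fintype_card, card_CM]

end act

theorem rk_dom_cx {p : ℕ} [hp : Fact p.Prime] (F E : IntermediateField ℚ ℂ) [NumberField F]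
    [NumberField ↥(F ⊔ E)] [FiniteDimensional ℚ E] [IsGalois ℚ E] (n : ℕ) (hn : Module.finrank ℚ E = p ^ n)
    {ι : Type} [Fintype ι] (H : Subgroup (F ≃ₐ[ℚ] F)) (D : ι → Subgroup (F ≃ₐ[ℚ] F))
    [NumberField ↥(fx F H ⊔ E)] [∀ i, NumberField ↥(fx F (D i) ⊔ E)]
    (hH : ¬ p ∣ Nat.card H) (hD : ∀ i, ¬ p ∣ Nat.card (D i)) (hdom : Dominates p H D) :
    rk p ↥(fx F H ⊔ E) ≤ (∏ i, rk p ↥(fx F (D i) ⊔ E)) ^ Nat.card (F ≃ₐ[ℚ] F) := by
  obtain ⟨i1, E', i2, h1, h2, h3, h4⟩ := exists_setup' F E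
  have h5 := rk_dom (p := p) F E' H D h1 h3 (fun x => ⟨n, by rw [← hn]; exact h4 x⟩) hH hD hdom
  rw [rk_congr_set (h2 H)] at h5
  refine h5.trans (le_of_eq ?_)
  congr 1
  exact Finset.prod_congr rfl fun i _ => rk_congr_set (h2 (D i))

end Pool.Agent.U152.MU
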